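import Pool.Agent.Lib.MP_e12961_lc.Test

/-!
Computably inseparable sets, a `Π⁰₁` class of positive measure without computable elements, and
the majority vote.
-/

set_option autoImplicit false

namespace Pool.Agent.MP_474f70_lc

open Pool.Agent.MP_e12961_lc
open Nat.Partrec (Code)
open Encodable Denumerable

/-! ### Inseparable sets -/

/-- The indices of the programs that return `0` on their own index. -/
def setA : Set ℕ := {n | 0 ∈ Code.eval (ofNat Code n) n}

/-- The indices of the programs that return `1` on their own index. -/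
def setB : Set ℕ := {n | 1 ∈ Code.eval (ofNat Code n) n}

theorem AB_disj : ∀ n ∈ setA, n ∉ setB := by
  intro n h0 h1
  have := Part.mem_unique h0 h1
  exact absurd this (by decide)

theorem insep (h : ℕ → Bool) (hc : Computable h) (hA : ∀ n ∈ setA, h n = false)
    (hB : ∀ n ∈ setB, h n = true) : False := by
  have h1 : Computable fun n => if h n = true then (0 : ℕ) else 1 := by
    have h2 : Primrec fun b : Bool => if b = true then (0 : ℕ) else 1 :=
      Primrec.dom_bool _
    exact h2.to_comp.comp hc
  obtain ⟨c, hc⟩ := Code.exists_code.1 (Partrec.nat_iff.1 h1.partrec)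
  have hev : Code.eval (ofNat Code (encode c)) (encode c) =
      Part.some (if h (encode c) = true then (0 : ℕ) else 1) := by
    rw [Denumerable.ofNat_encode, hc]
    rfl
  by_cases hh : h (encode c) = true
  · have h3 : encode c ∈ setA := by
      change 0 ∈ Code.eval (ofNat Code (encode c)) (encode c)
      rw [hev, if_pos hh]
      exact Part.mem_some _
    have h4 := hA _ h3
    rw [hh] at h4
    exact absurd h4 (by decide)
  · have h3 : encode c ∈ setB := by
      change 1 ∈ Code.eval (ofNat Code (encode c)) (encode c)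
      rw [hev, if_neg hh]
      exact Part.mem_some _
    exact hh (hB _ h3)

/-! ### The class -/

/-- The string is covered by the neighbourhoods of the computable sequences. -/
def Ubad (σ : List Bool) : Prop :=
  ∃ e < σ.length, e + 3 ≤ σ.length ∧
    ∀ i < e + 3, Code.evaln σ.length (ofNat Code e) i = some (σ.getD i false).toNat

theorem primrec_Ubad : PrimrecPred Ubad := by
  unfold Ubad
  refine pp_exists_lt (β := List Bool) (f := fun σ => σ.length)
    (R := fun σ e => e + 3 ≤ σ.length ∧
      ∀ i < e + 3, Code.evaln σ.length (ofNat Code e) i = some (σ.getD i false).toNat)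
    Primrec.list_length ?_
  have he : Primrec fun q : List Bool × ℕ => q.2 + 3 :=
    Primrec.nat_add.comp Primrec.snd (Primrec.const 3)
  refine PrimrecPred.and (Primrec.nat_le.comp he (Primrec.list_length.comp Primrec.fst)) ?_
  refine pp_forall_lt (β := List Bool × ℕ) (f := fun q => q.2 + 3)
    (R := fun q i => Code.evaln q.1.length (ofNat Code q.2) i =
      some (q.1.getD i false).toNat) he ?_
  refine Primrec.eq.comp ?_ ?_
  · exact Code.primrec_evaln.comp
      (((Primrec.list_length.comp (Primrec.fst.comp Primrec.fst)).pair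
        ((Primrec.ofNat Code).comp (Primrec.snd.comp Primrec.fst))).pair Primrec.snd)
  · refine Primrec.option_some.comp ((Primrec.dom_bool Bool.toNat).comp ?_)
    exact (Primrec.list_getD false).comp (Primrec.fst.comp Primrec.fst) Primrec.snd

theorem Ubad.mono {σ : List Bool} (h : Ubad σ) (τ : List Bool) : Ubad (σ ++ τ) := by
  obtain ⟨e, he, h3, hall⟩ := h
  refine ⟨e, by rw [List.length_append]; omega, by rw [List.length_append]; omega, ?_⟩
  intro i hi
  rw [getD_append_of_lt σ τ i (by omega)]
  exact Code.evaln_mono (by rw [List.length_append]; omega) (hall i hi)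

theorem cnt_Ubad (s : ℕ) [DecidablePred Ubad] : 4 * ((S s).filter fun σ => Ubad σ).card ≤ 2 ^ s := by
  classical
  let N : ℕ → Finset (List Bool) := fun e => (S s).filter fun σ =>
    e + 3 ≤ s ∧ ∀ i < e + 3, Code.evaln s (ofNat Code e) i = some (σ.getD i false).toNat
  have hsub : ((S s).filter fun σ => Ubad σ) ⊆ (Finset.range s).biUnion N := by
    intro σ hσ
    rw [Finset.mem_filter, mem_S] at hσ
    obtain ⟨hlen, e, he, h3, hall⟩ := hσ
    rw [Finset.mem_biUnion]
    refine ⟨e, by rw [Finset.mem_range]; omega, ?_⟩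
    rw [Finset.mem_filter, mem_S]
    rw [hlen] at h3 hall
    exact ⟨hlen, h3, hall⟩
  have hN : ∀ e, ((N e).card : ℝ) ≤ 2 ^ s * (1 / 8) * (1 / 2 : ℝ) ^ e := by
    intro e
    by_cases h3 : e + 3 ≤ s
    · have h5 := cnt_fixed s (Finset.range (e + 3))
        (fun i hi => by rw [Finset.mem_range] at hi; omega)
        (fun i => decide (Code.evaln s (ofNat Code e) i = some 1))
      have h6 : ((N e).card : ℝ) ≤ 2 ^ s / 2 ^ (Finset.range (e + 3)).card := by
        rw [← h5]
        refine Nat.cast_le.2 (Finset.card_le_card ?_)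
        intro σ hσ
        rw [Finset.mem_filter] at hσ ⊢
        refine ⟨hσ.1, ?_⟩
        intro i hi
        rw [Finset.mem_range] at hi
        rw [hσ.2.2 i hi]
        cases σ.getD i false <;> simp
      refine h6.trans (le_of_eq ?_)
      rw [Finset.card_range, pow_add, one_div, one_div, inv_pow]
      field_simp
      norm_num
    · have h4 : N e = ∅ := by
        apply Finset.filter_eq_empty_iff.2
        intro σ _ h
        exact h3 h.1
      rw [h4]
      simp only [Finset.card_empty, Nat.cast_zero]
      positivity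
  have hsum : (((S s).filter fun σ => Ubad σ).card : ℝ) ≤ 2 ^ s * (1 / 4) := by
    have h7 : (((S s).filter fun σ => Ubad σ).card : ℝ) ≤ ∑ e ∈ Finset.range s, ((N e).card : ℝ) := by
      exact_mod_cast (Finset.card_le_card hsub).trans Finset.card_biUnion_le
    refine h7.trans ((Finset.sum_le_sum fun e _ => hN e).trans ?_)
    rw [← Finset.mul_sum]
    have h8 : ∑ e ∈ Finset.range s, (1 / 2 : ℝ) ^ e ≤ 2 := by
      rw [geom_sum_eq (by norm_num)]
      have h9 : (0 : ℝ) ≤ (1 / 2) ^ s := by positivity
      have h9a : ((1 / 2 : ℝ) ^ s - 1) / (1 / 2 - 1) = 2 * (1 - (1 / 2 : ℝ) ^ s) := by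
        rw [show (1 / 2 : ℝ) - 1 = -(1 / 2) by norm_num]
        ring
      rw [h9a]
      linarith
    have h10 : (0 : ℝ) ≤ 2 ^ s * (1 / 8) := by positivity
    nlinarith
  have h11 : (4 * (((S s).filter fun σ => Ubad σ).card : ℝ)) ≤ 2 ^ s := by linarith
  exact_mod_cast h11

/-- The class. -/
def clsP : Set (ℕ → Bool) := {x | ∀ n, ¬ Ubad (res x n)}

theorem clsP_not_computable (x : ℕ → Bool) (hx : x ∈ clsP) : ¬ Computable x := by
  intro hc
  have h1 : Computable fun n => (x n).toNat := (Primrec.dom_bool Bool.toNat).to_comp.comp hc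
  obtain ⟨c, hc⟩ := Code.exists_code.1 (Partrec.nat_iff.1 h1.partrec)
  have hev : ∀ i, (x i).toNat ∈ Code.eval c i := by
    intro i
    rw [hc]
    exact Part.mem_some _
  have hk : ∀ i, ∃ k, (x i).toNat ∈ Code.evaln k c i := fun i => Code.evaln_complete.1 (hev i)
  choose k hk using hk
  set e := encode c with he
  -- a common bound
  obtain ⟨K, hK⟩ : ∃ K, ∀ i < e + 3, k i ≤ K := by
    refine ⟨(Finset.range (e + 3)).sup k, fun i hi => ?_⟩
    exact Finset.le_sup (f := k) (Finset.mem_range.2 hi)
  refine hx (K + e + 3) ⟨e, by rw [res_length]; omega, by rw [res_length]; omega, ?_⟩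
  intro i hi
  rw [res_length, he, Denumerable.ofNat_encode, res_getD x _ i (by omega)]
  exact Code.evaln_mono (by have := hK i hi; omega) (hk i)

/-! ### Counting and compactness -/

theorem count_ext (Q : List Bool → Prop) [DecidablePred Q] (hQ : ∀ σ b, Q σ → Q (σ ++ [b])) (s t : ℕ)
    (hst : s ≤ t) :
    (((S s).filter fun σ => Q σ).card : ℝ) * 2 ^ (t - s) ≤ ((S t).filter fun σ => Q σ).card := by
  induction t, hst using Nat.le_induction with
  | base => simp
  | succ t hst ih =>
    have h1 : ∀ r, (((S r).filter fun σ => Q σ).card : ℝ) = ∑ σ ∈ S r, if Q σ then (1 : ℝ) else 0 := by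
      intro r
      rw [Finset.card_eq_sum_ones, Finset.sum_filter]
      push_cast
      rfl
    have h2 : (((S t).filter fun σ => Q σ).card : ℝ) * 2 ≤
        ((S (t + 1)).filter fun σ => Q σ).card := by
      rw [h1, h1, sum_S_succ, Finset.sum_mul]
      apply Finset.sum_le_sum
      intro σ _
      by_cases hσ : Q σ
      · rw [if_pos hσ, if_pos (hQ σ false hσ), if_pos (hQ σ true hσ)]
        norm_num
      · rw [if_neg hσ]
        split_ifs <;> norm_num
    have h3 : (2 : ℝ) ^ (t + 1 - s) = 2 ^ (t - s) * 2 := by
      rw [← pow_succ]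
      congr 1
      omega
    rw [h3, ← mul_assoc]
    refine le_trans ?_ h2
    exact mul_le_mul_of_nonneg_right ih (by norm_num)

theorem clsP_of_count (Q : List Bool → Prop) (s : ℕ)
    (h : ∃ N : Finset (List Bool), (∀ σ ∈ N, σ.length = s ∧ Q σ) ∧ 2 ^ s < 4 * N.card) :
    ∃ y ∈ clsP, Q (res y s) := by
  classical
  obtain ⟨N, hN1, hN2⟩ := h
  let Q' : List Bool → Prop := fun σ => s ≤ σ.length ∧ Q (σ.take s)
  have hQ' : ∀ σ b, Q' σ → Q' (σ ++ [b]) := by
    rintro σ b ⟨h1, h2⟩
    refine ⟨by rw [List.length_append]; omega, ?_⟩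
    rw [List.take_append_of_le_length h1]
    exact h2
  have hNs : N ⊆ (S s).filter fun σ => Q' σ := by
    intro σ hσ
    obtain ⟨h1, h2⟩ := hN1 σ hσ
    rw [Finset.mem_filter, mem_S]
    refine ⟨h1, h1.ge, ?_⟩
    rw [List.take_of_length_le h1.le]
    exact h2
  have hbig : ∀ t, s ≤ t → ∃ σ : List Bool, σ.length = t ∧ ¬ Ubad σ ∧ Q' σ := by
    intro t hst
    have h1 := count_ext Q' hQ' s t hst
    have h2 : (N.card : ℝ) * 2 ^ (t - s) ≤ ((S t).filter fun σ => Q' σ).card := by
      refine le_trans ?_ h1
      apply mul_le_mul_of_nonneg_right _ (by positivity)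
      exact_mod_cast Finset.card_le_card hNs
    have h3 : N.card * 2 ^ (t - s) ≤ ((S t).filter fun σ => Q' σ).card := by
      exact_mod_cast h2
    have h4 : 2 ^ t < 4 * ((S t).filter fun σ => Q' σ).card := by
      have h5 : 2 ^ t = 2 ^ s * 2 ^ (t - s) := by
        rw [← pow_add]
        congr 1
        omega
      have h6 : 2 ^ s * 2 ^ (t - s) < 4 * N.card * 2 ^ (t - s) :=
        Nat.mul_lt_mul_of_pos_right hN2 (by positivity)
      rw [h5]
      calc 2 ^ s * 2 ^ (t - s) < 4 * N.card * 2 ^ (t - s) := h6
        _ = 4 * (N.card * 2 ^ (t - s)) := by ring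
        _ ≤ _ := Nat.mul_le_mul_left 4 h3
    have h7 := cnt_Ubad t
    by_contra hcon
    push Not at hcon
    have h8 : ((S t).filter fun σ => Q' σ) ⊆ ((S t).filter fun σ => Ubad σ) := by
      intro σ hσ
      rw [Finset.mem_filter, mem_S] at hσ
      rw [Finset.mem_filter, mem_S]
      refine ⟨hσ.1, ?_⟩
      by_contra hU
      exact hcon σ hσ.1 hU hσ.2
    have h9 := Finset.card_le_card h8
    omega
  obtain ⟨y, hy⟩ := koenig (fun σ => ¬ Ubad σ ∧ (s ≤ σ.length → Q (σ.take s)))
    (by
      rintro σ b ⟨h1, h2⟩
      refine ⟨fun hU => h1 (hU.mono [b]), fun hs => ?_⟩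
      have h3 := h2 (by rw [List.length_append]; omega)
      rwa [List.take_append_of_le_length hs] at h3)
    (by
      intro t
      rcases Nat.le_total s t with hst | hst
      · obtain ⟨σ, h1, h2, h3⟩ := hbig t hst
        exact ⟨σ, h1, h2, fun _ => h3.2⟩
      · obtain ⟨σ, h1, h2, h3⟩ := hbig s le_rfl
        refine ⟨σ.take t, by rw [List.length_take]; omega, ?_, ?_⟩
        · intro hU
          apply h2
          have := hU.mono (σ.drop t)
          rwa [List.take_append_drop] at this
        · intro hs
          rw [List.length_take] at hs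
          have hts : t = s := by omega
          subst hts
          rw [List.take_take, min_self]
          exact h3.2)
  refine ⟨y, fun n => (hy n).1, ?_⟩
  have := (hy s).2 (by rw [res_length])
  rwa [List.take_of_length_le (by rw [res_length])] at this

theorem clsP_nonempty : clsP.Nonempty := by
  classical
  obtain ⟨y, hy, _⟩ := clsP_of_count (fun _ => True) 0
    ⟨S 0, fun σ hσ => ⟨(mem_S 0 σ).1 hσ, trivial⟩, by rw [card_S]; norm_num⟩
  exact ⟨y, hy⟩

theorem clsP_compact (Q : List Bool → Prop) (hQ : ∀ σ b, Q σ → Q (σ ++ [b]))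
    (h : ∀ y ∈ clsP, ∃ s, Q (res y s)) : ∃ s, ∀ σ : List Bool, σ.length = s → Ubad σ ∨ Q σ := by
  by_contra hcon
  push Not at hcon
  obtain ⟨y, hy⟩ := koenig (fun σ => ¬ Ubad σ ∧ ¬ Q σ)
    (by
      rintro σ b ⟨h1, h2⟩
      exact ⟨fun hU => h1 (hU.mono [b]), fun hs => h2 (hQ σ b hs)⟩) hcon
  obtain ⟨s, hs⟩ := h y fun n => (hy n).1
  exact (hy s).2 hs

/-- The majority vote: a primitive recursive voting procedure that decides every element of the
class, and that is correct on the two sets, would separate them. -/
theorem majority (vote : List Bool → ℕ → Option Bool) (hp : Primrec₂ vote)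
    (hm : ∀ σ b n v, vote σ n = some v → vote (σ ++ [b]) n = some v)
    (ht : ∀ y ∈ clsP, ∀ n, ∃ s v, vote (res y s) n = some v)
    (hA : ∀ y ∈ clsP, ∀ n ∈ setA, ∀ s, vote (res y s) n ≠ some true)
    (hB : ∀ y ∈ clsP, ∀ n ∈ setB, ∀ s, vote (res y s) n ≠ some false) : False := by
  classical
  let ct : Bool → ℕ → ℕ → ℕ := fun v n s =>
    ((strs s).filter fun σ => decide (vote σ n = some v)).length
  have hct : ∀ v, Primrec₂ (ct v) := by
    intro v
    have h1 := pr_count (β := ℕ × ℕ) (α := List Bool) (L := fun q => strs q.2)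
      (R := fun q σ => vote σ q.1 = some v) (primrec_strs.comp Primrec.snd)
      (Primrec.eq.comp (hp.comp Primrec.snd (Primrec.fst.comp Primrec.fst))
        (Primrec.const (some v)))
    refine h1.of_eq fun q => ?_
    apply congrArg List.length
    apply List.filter_congr
    intro σ _
    exact decide_eq_decide.2 Iff.rfl
  have hcard : ∀ v n s, ct v n s = ((S s).filter fun σ => vote σ n = some v).card := by
    intro v n s
    change ((strs s).filter fun σ => decide (vote σ n = some v)).length = _
    rw [← List.toFinset_card_of_nodup (List.Nodup.filter _ (strs_nodup s))]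
    congr 1
    ext σ
    simp [S]
  -- a big number of votes is witnessed in the class
  have hbig : ∀ v n s, 2 ^ s < 4 * ct v n s → ∃ y ∈ clsP, vote (res y s) n = some v := by
    intro v n s h
    refine clsP_of_count (fun σ => vote σ n = some v) s
      ⟨(S s).filter fun σ => vote σ n = some v, ?_, ?_⟩
    · intro σ hσ
      rw [Finset.mem_filter, mem_S] at hσ
      exact hσ
    · rw [← hcard]
      exact h
  have hex : ∀ n, ∃ s, 2 ^ s < 4 * ct true n s ∨ 2 ^ s < 4 * ct false n s := by
    intro n
    obtain ⟨s, hs⟩ := clsP_compact (fun σ => ∃ v, vote σ n = some v)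
      (fun σ b ⟨v, hv⟩ => ⟨v, hm σ b n v hv⟩) (fun y hy => ht y hy n)
    refine ⟨s, ?_⟩
    rw [hcard, hcard]
    have h1 : S s = ((S s).filter fun σ => Ubad σ) ∪
        (((S s).filter fun σ => vote σ n = some true) ∪
         ((S s).filter fun σ => vote σ n = some false)) := by
      ext σ
      rw [Finset.mem_union, Finset.mem_union, Finset.mem_filter, Finset.mem_filter,
        Finset.mem_filter]
      constructor
      · intro hσ
        rcases hs σ ((mem_S s σ).1 hσ) with h | ⟨v, hv⟩
        · exact Or.inl ⟨hσ, h⟩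
        · cases v with
          | true => exact Or.inr (Or.inl ⟨hσ, hv⟩)
          | false => exact Or.inr (Or.inr ⟨hσ, hv⟩)
      · rintro (h | h | h) <;> exact h.1
    have h2 := congrArg Finset.card h1
    rw [card_S] at h2
    have h3 := Finset.card_union_le ((S s).filter fun σ => Ubad σ)
      (((S s).filter fun σ => vote σ n = some true) ∪
         ((S s).filter fun σ => vote σ n = some false))
    have h4 := Finset.card_union_le ((S s).filter fun σ => vote σ n = some true)
         ((S s).filter fun σ => vote σ n = some false)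
    have h5 := cnt_Ubad s
    have h6 : 0 < 2 ^ s := by positivity
    omega
  have hdec : ∀ v, PrimrecPred fun q : ℕ × ℕ => 2 ^ q.2 < 4 * ct v q.1 q.2 := by
    intro v
    refine Primrec.nat_lt.comp ?_ (Primrec.nat_mul.comp (Primrec.const 4) (hct v))
    have h1 := (Primrec.list_length.comp primrec_strs).comp (Primrec.snd (α := ℕ) (β := ℕ))
    refine h1.of_eq fun q => ?_
    rw [strs_length]
  let h : ℕ → Bool := fun n => decide (2 ^ (Nat.find (hex n)) < 4 * ct true n (Nat.find (hex n)))
  have hcomp : Computable h := by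
    have h1 : Computable₂ fun n s : ℕ =>
        decide (2 ^ s < 4 * ct true n s ∨ 2 ^ s < 4 * ct false n s) := by
      have h1a := (PrimrecPred.or (hdec true) (hdec false)).decide.to_comp
      refine h1a.of_eq fun q => ?_
      exact decide_eq_decide.2 Iff.rfl
    have h2 : Partrec fun n => Nat.rfind fun s =>
        Part.some (decide (2 ^ s < 4 * ct true n s ∨ 2 ^ s < 4 * ct false n s)) :=
      Partrec.rfind h1.partrec₂
    have h3 : Computable fun n => Nat.find (hex n) := by
      refine Partrec.of_eq h2 fun n => ?_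
      have h4 : Nat.find (hex n) ∈ Nat.rfind fun s =>
          Part.some (decide (2 ^ s < 4 * ct true n s ∨ 2 ^ s < 4 * ct false n s)) := by
        rw [Nat.mem_rfind]
        constructor
        · have := Nat.find_spec (hex n)
          simpa using this
        · intro m hm
          have := Nat.find_min (hex n) hm
          simpa using this
      exact Part.eq_some_iff.2 h4
    have h5 := (hdec true).decide.to_comp.comp (Computable.pair Computable.id h3)
    refine h5.of_eq fun n => ?_
    exact decide_eq_decide.2 Iff.rfl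
  refine insep h hcomp ?_ ?_
  · intro n hn
    by_contra hcon
    rw [Bool.not_eq_false] at hcon
    have h1 := of_decide_eq_true hcon
    obtain ⟨y, hy, hv⟩ := hbig true n _ h1
    exact hA y hy n hn _ hv
  · intro n hn
    rcases Nat.find_spec (hex n) with h1 | h1
    · exact decide_eq_true h1
    · obtain ⟨y, hy, hv⟩ := hbig false n _ h1
      exact absurd hv (hB y hy n hn _)

end Pool.Agent.MP_474f70_lc
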