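import Mathlib

/-!
Definitions: Turing functionals, Medvedev reducibility, effectively closed sets, recursively
presented groups, and the sequences attached to the configurations on a group.
-/

set_option autoImplicit false

namespace Pool.Agent.MP_474f70_lc

/-- Turing functionals: the partial functions `F y : ℕ → Part ℕ` computed, uniformly in the
oracle `y : ℕ → ℕ`, by one oracle program. This is the smallest class that contains the basic
functions and the oracle and is closed under pairing, composition, primitive recursion and
unbounded search (compare `Nat.RecursiveIn` in Mathlib, which treats a fixed oracle). -/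
inductive TuringFunctional : ((ℕ → ℕ) → ℕ → Part ℕ) → Prop
  | zero : TuringFunctional fun _ _ => Part.some 0
  | succ : TuringFunctional fun _ n => Part.some (n + 1)
  | left : TuringFunctional fun _ n => Part.some n.unpair.1
  | right : TuringFunctional fun _ n => Part.some n.unpair.2
  | oracle : TuringFunctional fun y n => Part.some (y n)
  | pair {F H : (ℕ → ℕ) → ℕ → Part ℕ} (hF : TuringFunctional F) (hH : TuringFunctional H) :
      TuringFunctional fun y n => (Nat.pair <$> F y n <*> H y n)
  | comp {F H : (ℕ → ℕ) → ℕ → Part ℕ} (hF : TuringFunctional F) (hH : TuringFunctional H) :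
      TuringFunctional fun y n => H y n >>= F y
  | prec {F H : (ℕ → ℕ) → ℕ → Part ℕ} (hF : TuringFunctional F) (hH : TuringFunctional H) :
      TuringFunctional fun y p =>
        Nat.rec (F y p.unpair.1)
          (fun j IH => IH >>= fun i => H y (Nat.pair p.unpair.1 (Nat.pair j i))) p.unpair.2
  | rfind {F : (ℕ → ℕ) → ℕ → Part ℕ} (hF : TuringFunctional F) :
      TuringFunctional fun y n =>
        Nat.rfind fun m => (fun v => decide (v = 0)) <$> F y (Nat.pair n m)

/-- Medvedev reducibility `P ≤ Q`: one Turing functional maps every element of `Q` to an element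
of `P`. -/
def MedvedevLE (P Q : Set (ℕ → ℕ)) : Prop :=
  ∃ F, TuringFunctional F ∧ ∀ y ∈ Q, ∃ x ∈ P, ∀ n, F y n = Part.some (x n)

/-- `P` and `Q` have the same Medvedev degree. -/
def MedvedevEquiv (P Q : Set (ℕ → ℕ)) : Prop := MedvedevLE P Q ∧ MedvedevLE Q P

/-- A set of sequences of bits, as a set of sequences of numbers. -/
def bits (P : Set (ℕ → Bool)) : Set (ℕ → ℕ) := {y | ∃ x ∈ P, ∀ n, y n = (x n).toNat}

/-- `P` is a `Π⁰₁` class: the set of sequences no initial segment of which lies in some
recursively enumerable set of strings. -/
def IsPi01 (P : Set (ℕ → Bool)) : Prop :=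
  ∃ U : Set (List Bool), REPred (fun σ => σ ∈ U) ∧
    ∀ x : ℕ → Bool, x ∈ P ↔ ∀ n, (List.range n).map x ∉ U

section group

variable {G : Type} [Group G] {k : ℕ}

/-- The group element represented by a word in the generators. -/
def val (s : Fin k → G) (w : List (Fin k)) : G := (w.map s).prod

/-- `s` is a finite symmetric generating family. -/
def IsSymmGen (s : Fin k → G) : Prop :=
  Subgroup.closure (Set.range s) = ⊤ ∧ ∀ i, ∃ j, s j = (s i)⁻¹

/-- The group has a presentation with generators `s` and a recursively enumerable set of
relators. -/
def RecPresented (s : Fin k → G) : Prop :=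
  ∃ R : Set (List (Fin k × Bool)), REPred (fun w => w ∈ R) ∧
    (FreeGroup.lift s).ker = Subgroup.normalClosure (FreeGroup.mk '' R)

variable {a : ℕ}

/-- The set of the sequences `w ↦ x (val s w)`, `x ∈ X`, indexed by (the codes of) words. -/
def hat (s : Fin k → G) (X : Set (G → Fin a)) : Set (ℕ → ℕ) :=
  {f | ∃ x ∈ X, ∀ n, f n = match (Encodable.decode n : Option (List (Fin k))) with
    | some w => (x (val s w)).val
    | none => 0}

end group

end Pool.Agent.MP_474f70_lc
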