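import Pool.Agent.Lib.MP_474f70_lc.Vote

/-!
The group is recursively presented, and the degree of the class is missed.
-/

set_option autoImplicit false

namespace Pool.Agent.MP_474f70_lc

open Pool.Agent.MP_e12961_lc
open Nat.Partrec (Code)
open Encodable Denumerable

/-! ### Recursively enumerable sets -/

theorem re_of_exists {α : Type*} [Primcodable α] {p : α → Prop} {Q : α → ℕ → Prop}
    (hQ : PrimrecPred fun q : α × ℕ => Q q.1 q.2) (h : ∀ a, p a ↔ ∃ m, Q a m) : REPred p := by
  classical
  have h1 : Computable₂ fun (a : α) (m : ℕ) => decide (Q a m) := by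
    refine hQ.decide.to_comp.of_eq fun q => ?_
    exact decide_eq_decide.2 Iff.rfl
  have h2 : Partrec fun a => Nat.rfind fun m => Part.some (decide (Q a m)) :=
    Partrec.rfind h1.partrec₂
  refine h2.dom_re.of_eq fun a => ?_
  rw [h]
  constructor
  · intro hd
    obtain ⟨m, hm⟩ := Part.dom_iff_mem.1 hd
    rw [Nat.mem_rfind] at hm
    exact ⟨m, by simpa using hm.1⟩
  · intro hex
    apply Part.dom_iff_mem.2
    refine ⟨Nat.find hex, ?_⟩
    rw [Nat.mem_rfind]
    constructor
    · simpa using Nat.find_spec hex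
    · intro m hm
      simpa using Nat.find_min hex hm

/-- The relators form a recursively enumerable set of words. -/
def relw : Set (List (Fin 54 × Bool)) := {w | w = pos (w.map Prod.fst) ∧ w.map Prod.fst ∈ RW setA setB}

theorem relw_eq : relw = pos '' RW setA setB := by
  ext w
  constructor
  · rintro ⟨h1, h2⟩
    exact ⟨_, h2, h1.symm⟩
  · rintro ⟨v, hv, rfl⟩
    have : (pos v).map Prod.fst = v := by
      unfold pos
      rw [List.map_map]
      conv_rhs => rw [← List.map_id v]
      rfl
    refine ⟨by rw [this], by rw [this]; exact hv⟩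

theorem mem_RW_iff (v : List (Fin 54)) : v ∈ RW setA setB ↔ ∃ m : ℕ, v ∈ Rfin ∨
    (Code.evaln m.unpair.2 (ofNat Code m.unpair.1) m.unpair.1 = some 0 ∧ v = W m.unpair.1) ∨
    (Code.evaln m.unpair.2 (ofNat Code m.unpair.1) m.unpair.1 = some 1 ∧
      v = W m.unpair.1 ++ [c0]) := by
  constructor
  · rintro (h | ⟨n, hn, rfl⟩ | ⟨n, hn, rfl⟩)
    · exact ⟨0, Or.inl h⟩
    · obtain ⟨r, hr⟩ := Code.evaln_complete.1 hn
      refine ⟨Nat.pair n r, Or.inr (Or.inl ?_)⟩
      rw [Nat.unpair_pair]
      exact ⟨hr, rfl⟩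
    · obtain ⟨r, hr⟩ := Code.evaln_complete.1 hn
      refine ⟨Nat.pair n r, Or.inr (Or.inr ?_)⟩
      rw [Nat.unpair_pair]
      exact ⟨hr, rfl⟩
  · rintro ⟨m, h | ⟨h, rfl⟩ | ⟨h, rfl⟩⟩
    · exact Or.inl h
    · exact Or.inr (Or.inl ⟨_, Code.evaln_sound h, rfl⟩)
    · exact Or.inr (Or.inr ⟨_, Code.evaln_sound h, rfl⟩)

theorem re_relw : REPred fun w => w ∈ relw := by
  refine re_of_exists (Q := fun w m => w = pos (w.map Prod.fst) ∧ (w.map Prod.fst ∈ Rfin ∨
    (Code.evaln m.unpair.2 (ofNat Code m.unpair.1) m.unpair.1 = some 0 ∧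
      w.map Prod.fst = W m.unpair.1) ∨
    (Code.evaln m.unpair.2 (ofNat Code m.unpair.1) m.unpair.1 = some 1 ∧
      w.map Prod.fst = W m.unpair.1 ++ [c0]))) ?_ ?_
  · have hw : Primrec fun q : List (Fin 54 × Bool) × ℕ => q.1 := Primrec.fst
    have hf : Primrec fun q : List (Fin 54 × Bool) × ℕ => q.1.map Prod.fst :=
      Primrec.list_map hw (Primrec.fst.comp Primrec.snd).to₂
    have hpos : Primrec pos := by
      unfold pos
      exact Primrec.list_map Primrec.id ((Primrec.snd).pair (Primrec.const true)).to₂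
    have hu : Primrec fun q : List (Fin 54 × Bool) × ℕ => q.2.unpair :=
      Primrec.unpair.comp Primrec.snd
    have h1 : Primrec fun q : List (Fin 54 × Bool) × ℕ => q.2.unpair.1 := Primrec.fst.comp hu
    have h2 : Primrec fun q : List (Fin 54 × Bool) × ℕ => q.2.unpair.2 := Primrec.snd.comp hu
    have he : Primrec fun q : List (Fin 54 × Bool) × ℕ =>
        Code.evaln q.2.unpair.2 (ofNat Code q.2.unpair.1) q.2.unpair.1 :=
      Code.primrec_evaln.comp ((h2.pair ((Primrec.ofNat Code).comp h1)).pair h1)
    refine PrimrecPred.and (Primrec.eq.comp hw (hpos.comp hf)) ?_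
    refine PrimrecPred.or ?_ (PrimrecPred.or ?_ ?_)
    · have h3 : PrimrecPred fun q : List (Fin 54 × Bool) × ℕ => ∃ a ∈ Rfin, q.1.map Prod.fst = a :=
        pp_exists_mem (L := fun _ => Rfin) (Primrec.const Rfin)
          (Primrec.eq.comp (hf.comp Primrec.fst) Primrec.snd)
      refine h3.of_eq fun q => ?_
      simp
    · exact PrimrecPred.and (Primrec.eq.comp he (Primrec.const (some 0)))
        (Primrec.eq.comp hf (primrec_W.comp h1))
    · exact PrimrecPred.and (Primrec.eq.comp he (Primrec.const (some 1)))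
        (Primrec.eq.comp hf (Primrec.list_append.comp (primrec_W.comp h1) (Primrec.const [c0])))
  · intro w
    change (w = pos (w.map Prod.fst) ∧ w.map Prod.fst ∈ RW setA setB) ↔ _
    rw [mem_RW_iff]
    constructor
    · rintro ⟨h1, m, h2⟩
      exact ⟨m, h1, h2⟩
    · rintro ⟨m, h1, h2⟩
      exact ⟨h1, m, h2⟩

theorem recPresented_sg : RecPresented (sg setA setB) := by
  refine ⟨relw, re_relw, ?_⟩
  have h1 : FreeGroup.lift (sg setA setB) = PresentedGroup.mk (rels setA setB) := by
    apply FreeGroup.ext_hom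
    intro a
    rw [FreeGroup.lift_apply_of]
    rfl
  rw [h1, relw_eq]
  exact QuotientGroup.ker_mk' _

theorem isSymmGen_sg : IsSymmGen (sg setA setB) := by
  refine ⟨?_, fun i => ⟨i, (sg_inv setA setB i).symm⟩⟩
  exact PresentedGroup.closure_range_of _

/-- Every element is represented by a word in a symmetric generating family. -/
theorem exists_val {G : Type} [Group G] {k : ℕ} {s : Fin k → G} (hs : IsSymmGen s) (g : G) :
    ∃ w, val s w = g := by
  have h : g ∈ (⊤ : Subgroup G) := Subgroup.mem_top g
  rw [← hs.1] at h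
  induction h using Subgroup.closure_induction with
  | mem x hx =>
    obtain ⟨a, rfl⟩ := hx
    exact ⟨[a], by simp [val]⟩
  | one => exact ⟨[], by simp [val]⟩
  | mul x y _ _ hx hy =>
    obtain ⟨u, hu⟩ := hx
    obtain ⟨v, hv⟩ := hy
    exact ⟨u ++ v, by rw [← hu, ← hv]; unfold val; rw [List.map_append, List.prod_append]⟩
  | inv x _ hx =>
    obtain ⟨u, hu⟩ := hx
    choose i hi using hs.2
    refine ⟨(u.map i).reverse, ?_⟩
    rw [← hu]
    unfold val
    rw [List.prod_inv_reverse, List.map_reverse, List.map_map, List.map_map]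
    congr 2
    apply List.map_congr_left
    intro a _
    exact hi a

/-- The class is effectively closed. -/
theorem isPi01_clsP : IsPi01 clsP := by
  refine ⟨{σ | Ubad σ}, ?_, fun x => Iff.rfl⟩
  refine re_of_exists (Q := fun σ _ => Ubad σ) (primrec_Ubad.comp Primrec.fst) fun σ => ?_
  exact ⟨fun h => ⟨0, h⟩, fun ⟨_, h⟩ => h⟩

/-- No set of configurations on the group has the Medvedev degree of the class. -/
theorem main {k : ℕ} (s : Fin k → Gp setA setB) (hs : IsSymmGen s) {a : ℕ}
    (X : Set (Gp setA setB → Fin a)) : ¬ MedvedevEquiv (hat s X) (bits clsP) := by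
  rintro ⟨⟨F, hF, hF2⟩, ⟨H, hH, hH2⟩⟩
  choose t ht using fun b : Fin 54 => exists_val hs (sg setA setB b)
  by_cases hX : ∃ x ∈ X, ∀ g g', x g = x g'
  · -- a constant configuration gives a computable element of the class
    obtain ⟨x, hx, hconst⟩ := hX
    let f : ℕ → ℕ := fun n => match (Encodable.decode n : Option (List (Fin k))) with
      | some w => (x (val s w)).val
      | none => 0
    have hf : f ∈ hat s X := ⟨x, hx, fun n => rfl⟩
    obtain ⟨z, ⟨y, hy, hzy⟩, hz⟩ := hH2 f hf
    have hfc : Computable f := by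
      have h1 : Primrec fun n : ℕ => Option.casesOn (motive := fun _ => ℕ)
          (Encodable.decode n : Option (List (Fin k))) 0 (fun _ => (x 1).val) :=
        Primrec.option_casesOn (Primrec.decode) (Primrec.const 0) (Primrec.const (x 1).val).to₂
      refine (h1.to_comp).of_eq fun n => ?_
      simp only [f]
      rcases (Encodable.decode n : Option (List (Fin k))) with _ | w
      · rfl
      · simp only
        rw [hconst (val s w) 1]
    have h2 : Nat.Partrec (H f) := tf_computable hH hfc
    have h3 : Computable z := by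
      have h4 : H f = fun n => Part.some (z n) := funext hz
      rw [h4] at h2
      exact Partrec.nat_iff.2 h2
    refine clsP_not_computable y hy ?_
    have h5 : Computable fun n => decide (z n = 1) :=
      (Primrec.eq.comp Primrec.id (Primrec.const 1)).decide.to_comp.comp h3
    refine h5.of_eq fun n => ?_
    rw [hzy n]
    cases y n <;> simp
  · -- otherwise the inseparable sets could be separated
    push Not at hX
    refine no_nonconstant hF s t ht ?_
    intro y hy
    obtain ⟨f, ⟨x, hx, hfx⟩, hf⟩ := hF2 (nb y) ⟨y, hy, fun n => rfl⟩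
    refine ⟨fun g => (x g).val, ?_, ?_⟩
    · obtain ⟨g, g', hne⟩ := hX x hx
      exact ⟨g, g', fun h => hne (Fin.ext h)⟩
    · intro w
      rw [hf, hfx]
      simp

end Pool.Agent.MP_474f70_lc
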