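import Pool.Agent.Lib.MP_474f70_lc.Defs
import Pool.Agent.Lib.MP_e12961_lc.Norm

/-!
Turing functionals: the use principle, and their behaviour on computable oracles.
-/

set_option autoImplicit false

namespace Pool.Agent.MP_474f70_lc

open Pool.Agent.MP_e12961_lc

/-- A sequence of bits as a sequence of numbers. -/
def nb (Y : ℕ → Bool) : ℕ → ℕ := fun n => (Y n).toNat

theorem tf_rep {F : (ℕ → ℕ) → ℕ → Part ℕ} (hF : TuringFunctional F) :
    ∃ ψ, ∀ Y : ℕ → Bool, Rep Y ψ (F (nb Y)) := by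
  induction hF with
  | zero => exact ⟨_, fun Y => rep_prim Y (fun _ => 0) (Primrec.const 0)⟩
  | succ => exact ⟨_, fun Y => rep_prim Y Nat.succ Primrec.succ⟩
  | left => exact ⟨_, fun Y => rep_prim Y (fun n => n.unpair.1) (Primrec.fst.comp Primrec.unpair)⟩
  | right => exact ⟨_, fun Y => rep_prim Y (fun n => n.unpair.2) (Primrec.snd.comp Primrec.unpair)⟩
  | oracle => exact ⟨_, fun Y => rep_oracle Y⟩
  | pair _ _ ih1 ih2 =>
    obtain ⟨ψ, h1⟩ := ih1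
    obtain ⟨χ, h2⟩ := ih2
    exact ⟨_, fun Y => rep_pair Y _ _ ψ χ (h1 Y) (h2 Y)⟩
  | comp _ _ ih1 ih2 =>
    obtain ⟨ψ, h1⟩ := ih1
    obtain ⟨χ, h2⟩ := ih2
    exact ⟨_, fun Y => rep_comp Y _ _ ψ χ (h1 Y) (h2 Y)⟩
  | prec _ _ ih1 ih2 =>
    obtain ⟨ψ, h1⟩ := ih1
    obtain ⟨χ, h2⟩ := ih2
    exact ⟨_, fun Y => rep_prec Y _ _ ψ χ (h1 Y) (h2 Y)⟩
  | rfind _ ih =>
    obtain ⟨ψ, h1⟩ := ih
    exact ⟨_, fun Y => rep_rfind Y _ ψ (h1 Y)⟩

theorem tf_computable {F : (ℕ → ℕ) → ℕ → Part ℕ} (hF : TuringFunctional F) {y : ℕ → ℕ}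
    (hy : Computable y) : Nat.Partrec (F y) := by
  induction hF with
  | zero => exact Nat.Partrec.zero
  | succ => exact Nat.Partrec.succ
  | left => exact Nat.Partrec.left
  | right => exact Nat.Partrec.right
  | oracle => exact Partrec.nat_iff.1 hy
  | pair _ _ ih1 ih2 => exact ih1.pair ih2
  | comp _ _ ih1 ih2 => exact ih1.comp ih2
  | prec _ _ ih1 ih2 => exact ih1.prec ih2
  | rfind _ ih => exact ih.rfind

end Pool.Agent.MP_474f70_lc
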