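import Pool.Agent.Lib.MP_474f70_lc.Model

/-!
The finitely generated group.
-/

set_option autoImplicit false

namespace Pool.Agent.MP_474f70_lc

/-- The letter of the elementary matrix with entry number `r` at place `(i, j)`. -/
def ltr (i j : Fin 3) (r : Fin 6) : Fin 54 := ⟨18 * i.val + 6 * j.val + r.val, by omega⟩

/-- The row of a letter. -/
def row (a : Fin 54) : Fin 3 := ⟨a.val / 18, by omega⟩

/-- The column of a letter. -/
def col (a : Fin 54) : Fin 3 := ⟨(a.val / 6) % 3, by omega⟩

/-- The entry number of a letter. -/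
def ent (a : Fin 54) : Fin 6 := ⟨a.val % 6, by omega⟩

theorem row_ltr (i j : Fin 3) (r : Fin 6) : row (ltr i j r) = i := by
  apply Fin.ext
  simp only [row, ltr]
  omega

theorem col_ltr (i j : Fin 3) (r : Fin 6) : col (ltr i j r) = j := by
  apply Fin.ext
  simp only [col, ltr]
  omega

theorem ent_ltr (i j : Fin 3) (r : Fin 6) : ent (ltr i j r) = r := by
  apply Fin.ext
  simp only [ent, ltr]
  omega

theorem ltr_eta (a : Fin 54) : ltr (row a) (col a) (ent a) = a := by
  apply Fin.ext
  simp only [row, col, ent, ltr]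
  omega

/-- The commutator word of two words representing involutions. -/
def comm (X Y : List (Fin 54)) : List (Fin 54) := X ++ Y ++ X ++ Y

/-- The words for the entries `(0, 2)` with the diagonal operators. -/
def Qw : ℕ → List (Fin 54)
  | 0 => [ltr 0 2 5]
  | n + 1 => comm [ltr 0 1 2] (comm [ltr 1 0 0] (comm (comm (Qw n) [ltr 2 1 0]) [ltr 1 2 1]))

/-- The words coding the two sets. -/
def W (n : ℕ) : List (Fin 54) :=
  comm [ltr 0 1 4] (comm [ltr 1 0 0] (comm (comm (Qw n) [ltr 2 1 0]) [ltr 1 2 3]))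

/-- The distinguished letter. -/
def c0 : Fin 54 := ltr 0 2 0

/-- Words witnessing that the group is infinite. -/
def Jw : ℕ → List (Fin 54)
  | 0 => [c0]
  | n + 1 => comm [ltr 0 1 1] (comm [ltr 1 0 0] (Jw n))

/-- The finitely many fixed relators. -/
def Rfin : List (List (Fin 54)) :=
  ((List.finRange 54).map fun a => [a, a]) ++
  (((List.finRange 3) ×ˢ (List.finRange 6)).map fun q => [ltr q.1 q.1 q.2]) ++
  ((((List.finRange 3) ×ˢ ((List.finRange 3) ×ˢ ((List.finRange 3) ×ˢ
      (List.finRange 6)))).filter fun q =>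
      decide (q.1 ≠ q.2.1 ∧ q.2.1 ≠ q.2.2.1 ∧ q.1 ≠ q.2.2.1)).flatMap fun q =>
    [comm [ltr q.1 q.2.1 0] [ltr q.2.1 q.2.2.1 q.2.2.2] ++ [ltr q.1 q.2.2.1 q.2.2.2],
     comm [ltr q.1 q.2.1 q.2.2.2] [ltr q.2.1 q.2.2.1 0] ++ [ltr q.1 q.2.2.1 q.2.2.2]])

theorem mem_Rfin (w : List (Fin 54)) : w ∈ Rfin ↔
    (∃ a, w = [a, a]) ∨ (∃ i r, w = [ltr i i r]) ∨
    (∃ i j k r, i ≠ j ∧ j ≠ k ∧ i ≠ k ∧
      (w = comm [ltr i j 0] [ltr j k r] ++ [ltr i k r] ∨
       w = comm [ltr i j r] [ltr j k 0] ++ [ltr i k r])) := by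
  unfold Rfin
  rw [List.mem_append, List.mem_append]
  constructor
  · rintro ((h | h) | h)
    · rw [List.mem_map] at h
      obtain ⟨a, _, rfl⟩ := h
      exact Or.inl ⟨a, rfl⟩
    · rw [List.mem_map] at h
      obtain ⟨q, _, rfl⟩ := h
      exact Or.inr (Or.inl ⟨q.1, q.2, rfl⟩)
    · rw [List.mem_flatMap] at h
      obtain ⟨q, hq, h⟩ := h
      rw [List.mem_filter] at hq
      have hq2 := of_decide_eq_true hq.2
      refine Or.inr (Or.inr ⟨q.1, q.2.1, q.2.2.1, q.2.2.2, hq2.1, hq2.2.1, hq2.2.2, ?_⟩)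
      simpa using h
  · rintro (⟨a, rfl⟩ | ⟨i, r, rfl⟩ | ⟨i, j, k, r, h1, h2, h3, h⟩)
    · left; left
      rw [List.mem_map]
      exact ⟨a, List.mem_finRange a, rfl⟩
    · left; right
      rw [List.mem_map]
      exact ⟨(i, r), by simp [List.mem_finRange], rfl⟩
    · right
      rw [List.mem_flatMap]
      refine ⟨(i, j, k, r), ?_, by simpa using h⟩
      rw [List.mem_filter]
      refine ⟨by simp [List.mem_finRange], ?_⟩
      exact decide_eq_true ⟨h1, h2, h3⟩

/-- The positive words that are relators. -/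
def RW (A B : Set ℕ) : Set (List (Fin 54)) :=
  {w | w ∈ Rfin ∨ (∃ n ∈ A, w = W n) ∨ (∃ n ∈ B, w = W n ++ [c0])}

/-- Positive words as words of the free group. -/
def pos (w : List (Fin 54)) : List (Fin 54 × Bool) := w.map fun a => (a, true)

/-- The relators. -/
def rels (A B : Set ℕ) : Set (FreeGroup (Fin 54)) :=
  FreeGroup.mk '' (pos '' (RW A B))

/-- The group. -/
abbrev Gp (A B : Set ℕ) : Type := PresentedGroup (rels A B)

/-- The generators. -/
def sg (A B : Set ℕ) (a : Fin 54) : Gp A B := PresentedGroup.of a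

theorem mk_pos (A B : Set ℕ) (w : List (Fin 54)) :
    PresentedGroup.mk (rels A B) (FreeGroup.mk (pos w)) = (w.map (sg A B)).prod := by
  induction w with
  | nil => rfl
  | cons a w ih =>
    rw [List.map_cons, List.prod_cons, ← ih]
    change PresentedGroup.mk (rels A B) (FreeGroup.mk ([(a, true)] ++ pos w)) = _
    rw [← FreeGroup.mul_mk, map_mul]
    rfl

theorem rel_one (A B : Set ℕ) (w : List (Fin 54)) (h : w ∈ RW A B) :
    (w.map (sg A B)).prod = 1 := by
  rw [← mk_pos]
  apply PresentedGroup.one_of_mem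
  exact ⟨pos w, ⟨w, h, rfl⟩, rfl⟩

theorem sg_mul_self (A B : Set ℕ) (a : Fin 54) : sg A B a * sg A B a = 1 := by
  have := rel_one A B [a, a] (Or.inl ((mem_Rfin _).2 (Or.inl ⟨a, rfl⟩)))
  simpa using this

theorem sg_inv (A B : Set ℕ) (a : Fin 54) : (sg A B a)⁻¹ = sg A B a :=
  inv_eq_of_mul_eq_one_left (sg_mul_self A B a)

theorem W_one (A B : Set ℕ) (n : ℕ) (h : n ∈ A) : ((W n).map (sg A B)).prod = 1 :=
  rel_one A B _ (Or.inr (Or.inl ⟨n, h, rfl⟩))

theorem W_c (A B : Set ℕ) (n : ℕ) (h : n ∈ B) : ((W n).map (sg A B)).prod = sg A B c0 := by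
  have h1 := rel_one A B (W n ++ [c0]) (Or.inr (Or.inr ⟨n, h, rfl⟩))
  rw [List.map_append, List.prod_append, List.map_cons, List.map_nil, List.prod_singleton] at h1
  rw [← sg_inv]
  exact eq_inv_of_mul_eq_one_left h1

theorem exists_word (A B : Set ℕ) (g : Gp A B) :
    ∃ w : List (Fin 54), (w.map (sg A B)).prod = g := by
  have h : g ∈ (⊤ : Subgroup (Gp A B)) := Subgroup.mem_top g
  rw [← PresentedGroup.closure_range_of] at h
  induction h using Subgroup.closure_induction with
  | mem x hx =>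
    obtain ⟨a, rfl⟩ := hx
    exact ⟨[a], by simp [sg]⟩
  | one => exact ⟨[], by simp⟩
  | mul x y _ _ hx hy =>
    obtain ⟨u, hu⟩ := hx
    obtain ⟨v, hv⟩ := hy
    exact ⟨u ++ v, by rw [List.map_append, List.prod_append, hu, hv]⟩
  | inv x _ hx =>
    obtain ⟨u, hu⟩ := hx
    refine ⟨u.reverse, ?_⟩
    rw [← hu, List.prod_inv_reverse, List.map_reverse, List.map_map]
    congr 2
    apply List.map_congr_left
    intro a _
    exact (sg_inv A B a).symm

theorem word_inv (A B : Set ℕ) (u : List (Fin 54)) :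
    (u.reverse.map (sg A B)).prod = ((u.map (sg A B)).prod)⁻¹ := by
  rw [List.prod_inv_reverse, List.map_reverse, List.map_map]
  congr 2
  apply List.map_congr_left
  intro a _
  exact (sg_inv A B a).symm

theorem comm_rel1 (A B : Set ℕ) {i j k : Fin 3} (hij : i ≠ j) (hjk : j ≠ k) (hik : i ≠ k)
    (r : Fin 6) : sg A B (ltr i k r) =
      sg A B (ltr i j 0) * sg A B (ltr j k r) * sg A B (ltr i j 0) * sg A B (ltr j k r) := by
  have h1 := rel_one A B (comm [ltr i j 0] [ltr j k r] ++ [ltr i k r])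
    (Or.inl ((mem_Rfin _).2 (Or.inr (Or.inr ⟨i, j, k, r, hij, hjk, hik, Or.inl rfl⟩))))
  rw [← sg_inv]
  symm
  apply eq_inv_of_mul_eq_one_left
  simpa [comm, mul_assoc] using h1

theorem comm_rel2 (A B : Set ℕ) {i j k : Fin 3} (hij : i ≠ j) (hjk : j ≠ k) (hik : i ≠ k)
    (r : Fin 6) : sg A B (ltr i k r) =
      sg A B (ltr i j r) * sg A B (ltr j k 0) * sg A B (ltr i j r) * sg A B (ltr j k 0) := by
  have h1 := rel_one A B (comm [ltr i j r] [ltr j k 0] ++ [ltr i k r])
    (Or.inl ((mem_Rfin _).2 (Or.inr (Or.inr ⟨i, j, k, r, hij, hjk, hik, Or.inr rfl⟩))))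
  rw [← sg_inv]
  symm
  apply eq_inv_of_mul_eq_one_left
  simpa [comm, mul_assoc] using h1

/-- The distinguished generator generates the group normally. -/
theorem normal_top (A B : Set ℕ) (N : Subgroup (Gp A B)) [hN : N.Normal]
    (hc : sg A B c0 ∈ N) : N = ⊤ := by
  -- a product `a b a b` of involutions lies in `N` if one of them does
  have key1 : ∀ a b : Fin 54, sg A B a ∈ N →
      sg A B a * sg A B b * sg A B a * sg A B b ∈ N := by
    intro a b ha
    have h1 := hN.conj_mem _ ha (sg A B b)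
    rw [sg_inv] at h1
    have h2 := N.mul_mem ha h1
    simpa [mul_assoc] using h2
  have key2 : ∀ a b : Fin 54, sg A B b ∈ N →
      sg A B a * sg A B b * sg A B a * sg A B b ∈ N := by
    intro a b hb
    have h1 := hN.conj_mem _ hb (sg A B a)
    rw [sg_inv] at h1
    have h2 := N.mul_mem h1 hb
    simpa [mul_assoc] using h2
  -- if the entry `1` at `(i, j)` is in `N` then so are the entries in row `i` and in column `j`
  have right : ∀ i j k : Fin 3, i ≠ j → j ≠ k → i ≠ k → sg A B (ltr i j 0) ∈ N →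
      ∀ r, sg A B (ltr i k r) ∈ N := by
    intro i j k hij hjk hik h r
    rw [comm_rel1 A B hij hjk hik r]
    exact key1 _ _ h
  have left : ∀ i j k : Fin 3, i ≠ j → j ≠ k → i ≠ k → sg A B (ltr j k 0) ∈ N →
      ∀ r, sg A B (ltr i k r) ∈ N := by
    intro i j k hij hjk hik h r
    rw [comm_rel2 A B hij hjk hik r]
    exact key2 _ _ h
  have h02 : sg A B (ltr 0 2 0) ∈ N := hc
  have h01 := right 0 2 1 (by decide) (by decide) (by decide) h02
  have h12 := left 1 0 2 (by decide) (by decide) (by decide) h02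
  have h02' := right 0 1 2 (by decide) (by decide) (by decide) (h01 0)
  have h21 := left 2 0 1 (by decide) (by decide) (by decide) (h01 0)
  have h10 := right 1 2 0 (by decide) (by decide) (by decide) (h12 0)
  have h20 := right 2 1 0 (by decide) (by decide) (by decide) (h21 0)
  have hall : ∀ a : Fin 54, sg A B a ∈ N := by
    intro a
    rw [← ltr_eta a]
    generalize row a = i
    generalize col a = j
    generalize ent a = r
    have hdiag : ∀ i r, sg A B (ltr i i r) ∈ N := by
      intro i r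
      have h1 := rel_one A B [ltr i i r]
        (Or.inl ((mem_Rfin _).2 (Or.inr (Or.inl ⟨i, r, rfl⟩))))
      have h2 : sg A B (ltr i i r) = 1 := by simpa using h1
      rw [h2]
      exact N.one_mem
    fin_cases i <;> fin_cases j
    · exact hdiag _ _
    · exact h01 _
    · exact h02' _
    · exact h10 _
    · exact hdiag _ _
    · exact h12 _
    · exact h20 _
    · exact h21 _
    · exact hdiag _ _
  rw [eq_top_iff, ← PresentedGroup.closure_range_of, Subgroup.closure_le]
  rintro _ ⟨a, rfl⟩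
  exact hall a

/-- A configuration that is invariant under right translation by all conjugates of the
distinguished generator is constant. -/
theorem exists_conj {α : Type*} (A B : Set ℕ) (x : Gp A B → α) (h : ∃ g g', x g ≠ x g') :
    ∃ g u : Gp A B, x g ≠ x (g * (u * sg A B c0 * u⁻¹)) := by
  by_contra hcon
  push Not at hcon
  -- the right periods of `x`
  let N : Subgroup (Gp A B) :=
    { carrier := {p | ∀ g, x (g * p) = x g}
      one_mem' := fun g => by rw [mul_one]
      mul_mem' := fun {p q} hp hq g => by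
        rw [← mul_assoc, hq (g * p), hp g]
      inv_mem' := fun {p} hp g => by
        have h1 := hp (g * p⁻¹)
        rw [inv_mul_cancel_right] at h1
        exact h1.symm }
  have hsub : Subgroup.normalClosure {sg A B c0} ≤ N := by
    rw [Subgroup.normalClosure, Subgroup.closure_le]
    intro y hy
    rw [Group.mem_conjugatesOfSet_iff] at hy
    obtain ⟨a, ha, hay⟩ := hy
    rw [Set.mem_singleton_iff] at ha
    subst ha
    rw [isConj_iff] at hay
    obtain ⟨u, hu⟩ := hay
    intro g
    rw [← hu]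
    exact (hcon g u).symm
  have htop : Subgroup.normalClosure {sg A B c0} = ⊤ :=
    normal_top A B _ (Subgroup.subset_normalClosure rfl)
  rw [htop] at hsub
  obtain ⟨g, g', hne⟩ := h
  apply hne
  have h1 : g⁻¹ * g' ∈ N := hsub (Subgroup.mem_top _)
  have h2 := h1 g
  rw [mul_inv_cancel_left] at h2
  exact h2.symm

/-! ### The model -/

/-- The ring elements. -/
def re (ε : ℕ → ZMod 2) (r : Fin 6) : AddMonoid.End V :=
  match r with
  | 0 => 1
  | 1 => up true
  | 2 => dn true
  | 3 => up false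
  | 4 => dn false
  | 5 => dg ε 0

/-- The image of a letter. -/
def gen (ε : ℕ → ZMod 2) (a : Fin 54) : Equiv.Perm V3 := T (row a) (col a) (re ε (ent a))

/-- The image of a word. -/
def ev (ε : ℕ → ZMod 2) (w : List (Fin 54)) : Equiv.Perm V3 := (w.map (gen ε)).prod

theorem ev_ltr (ε : ℕ → ZMod 2) (i j : Fin 3) (r : Fin 6) :
    ev ε [ltr i j r] = T i j (re ε r) := by
  simp [ev, gen, row_ltr, col_ltr, ent_ltr]

theorem ev_append (ε : ℕ → ZMod 2) (u v : List (Fin 54)) : ev ε (u ++ v) = ev ε u * ev ε v := by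
  simp [ev]

theorem ev_comm (ε : ℕ → ZMod 2) (u v : List (Fin 54)) :
    ev ε (comm u v) = ev ε u * ev ε v * ev ε u * ev ε v := by
  simp [comm, ev_append, mul_assoc]

theorem ev_comm_T (ε : ℕ → ZMod 2) (u v : List (Fin 54)) {i j k : Fin 3} (hij : i ≠ j)
    (hjk : j ≠ k) (hik : i ≠ k) (p q : AddMonoid.End V) (hu : ev ε u = T i j p)
    (hv : ev ε v = T j k q) : ev ε (comm u v) = T i k (p * q) := by
  rw [ev_comm, hu, hv, T_comm hij hjk hik]

theorem ev_Qw (ε : ℕ → ZMod 2) (n : ℕ) : ev ε (Qw n) = T 0 2 (dg ε n) := by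
  induction n with
  | zero => exact ev_ltr ε 0 2 5
  | succ n ih =>
    rw [Qw]
    have h1 := ev_comm_T ε (Qw n) [ltr 2 1 0] (i := 0) (j := 2) (k := 1) (by decide)
      (by decide) (by decide) _ _ ih (ev_ltr ε 2 1 0)
    have h2 := ev_comm_T ε _ [ltr 1 2 1] (i := 0) (j := 1) (k := 2) (by decide)
      (by decide) (by decide) _ _ h1 (ev_ltr ε 1 2 1)
    have h3 := ev_comm_T ε [ltr 1 0 0] _ (i := 1) (j := 0) (k := 2) (by decide)
      (by decide) (by decide) _ _ (ev_ltr ε 1 0 0) h2
    have h4 := ev_comm_T ε [ltr 0 1 2] _ (i := 0) (j := 1) (k := 2) (by decide)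
      (by decide) (by decide) _ _ (ev_ltr ε 0 1 2) h3
    rw [h4]
    change T 0 2 (dn true * (1 * ((dg ε n * 1) * up true))) = _
    rw [mul_one, one_mul, dn_dg_up]

theorem ev_W (ε : ℕ → ZMod 2) (n : ℕ) :
    ev ε (W n) = T 0 2 (if ε n = 0 then 0 else 1) := by
  rw [W]
  have h1 := ev_comm_T ε (Qw n) [ltr 2 1 0] (i := 0) (j := 2) (k := 1) (by decide)
    (by decide) (by decide) _ _ (ev_Qw ε n) (ev_ltr ε 2 1 0)
  have h2 := ev_comm_T ε _ [ltr 1 2 3] (i := 0) (j := 1) (k := 2) (by decide)
    (by decide) (by decide) _ _ h1 (ev_ltr ε 1 2 3)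
  have h3 := ev_comm_T ε [ltr 1 0 0] _ (i := 1) (j := 0) (k := 2) (by decide)
    (by decide) (by decide) _ _ (ev_ltr ε 1 0 0) h2
  have h4 := ev_comm_T ε [ltr 0 1 4] _ (i := 0) (j := 1) (k := 2) (by decide)
    (by decide) (by decide) _ _ (ev_ltr ε 0 1 4) h3
  rw [h4]
  change T 0 2 (dn false * (1 * ((dg ε n * 1) * up false))) = _
  rw [mul_one, one_mul, dn_dg_up']

theorem ev_Jw (ε : ℕ → ZMod 2) (n : ℕ) : ev ε (Jw n) = T 0 2 (up true ^ n) := by
  induction n with
  | zero =>
    rw [Jw, c0, ev_ltr, pow_zero]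
    rfl
  | succ n ih =>
    rw [Jw]
    have h3 := ev_comm_T ε [ltr 1 0 0] _ (i := 1) (j := 0) (k := 2) (by decide)
      (by decide) (by decide) _ _ (ev_ltr ε 1 0 0) ih
    have h4 := ev_comm_T ε [ltr 0 1 1] _ (i := 0) (j := 1) (k := 2) (by decide)
      (by decide) (by decide) _ _ (ev_ltr ε 0 1 1) h3
    rw [h4, pow_succ']
    congr 1

theorem up_pow_apply (n : ℕ) (w : List Bool) :
    (up true ^ n) (fun w => if w = [] then 1 else 0) w =
      if w = List.replicate n true then (1 : ZMod 2) else 0 := by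
  induction n generalizing w with
  | zero => rfl
  | succ n ih =>
    rw [pow_succ']
    change (match w with
      | [] => 0
      | e :: w' => if e = true then (up true ^ n) (fun w => if w = [] then 1 else 0) w' else 0) = _
    cases w with
    | nil => simp [List.replicate_succ]
    | cons e w' =>
      simp only
      rw [ih w', List.replicate_succ]
      by_cases he : e = true
      · subst he
        simp
      · simp [he]

theorem T_pow_val (m : ℕ) (w : List Bool) :
    T 0 2 (up true ^ m) (fun i => if i = 2 then (fun w => if w = [] then 1 else 0) else 0) 0 w =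
      if w = List.replicate m true then (1 : ZMod 2) else 0 := by
  rw [T_apply_ne (by decide), Function.update_self, ← up_pow_apply]
  change (0 : V) w + _ = _
  rw [Pi.zero_apply, zero_add]
  rfl

theorem T_pow_inj (m n : ℕ) (h : T 0 2 (up true ^ m) = T 0 2 (up true ^ n)) : m = n := by
  have h1 := T_pow_val m (List.replicate m true)
  rw [h, T_pow_val, if_pos rfl] at h1
  by_contra hne
  have h3 : List.replicate m true ≠ List.replicate n true := by
    intro h4
    apply hne
    simpa using congrArg List.length h4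
  rw [if_neg h3] at h1
  simp at h1

theorem lift_pos (ε : ℕ → ZMod 2) (w : List (Fin 54)) :
    FreeGroup.lift (gen ε) (FreeGroup.mk (pos w)) = ev ε w := by
  rw [FreeGroup.lift_mk, pos, List.map_map, ev]
  rfl

theorem ev_rel (ε : ℕ → ZMod 2) (A B : Set ℕ) (hA : ∀ n ∈ A, ε n = 0) (hB : ∀ n ∈ B, ε n = 1)
    (w : List (Fin 54)) (h : w ∈ RW A B) : ev ε w = 1 := by
  rcases h with h | ⟨n, hn, rfl⟩ | ⟨n, hn, rfl⟩
  · rw [mem_Rfin] at h
    rcases h with ⟨a, rfl⟩ | ⟨i, r, rfl⟩ | ⟨i, j, k, r, hij, hjk, hik, h⟩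
    · have : ev ε [a, a] = gen ε a * gen ε a := by simp [ev]
      rw [this]
      exact T_mul_self _ _ _
    · rw [ev_ltr, T_self]
    · rcases h with rfl | rfl
      · rw [ev_append, ev_comm_T ε _ _ hij hjk hik _ _ (ev_ltr ε i j 0) (ev_ltr ε j k r),
          ev_ltr]
        change T i k (1 * re ε r) * _ = 1
        rw [one_mul, T_mul_self]
      · rw [ev_append, ev_comm_T ε _ _ hij hjk hik _ _ (ev_ltr ε i j r) (ev_ltr ε j k 0),
          ev_ltr]
        change T i k (re ε r * 1) * _ = 1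
        rw [mul_one, T_mul_self]
  · rw [ev_W, if_pos (hA n hn), T_zero]
  · rw [ev_append, ev_W, if_neg (by rw [hB n hn]; decide), c0, ev_ltr]
    exact T_mul_self _ _ _

theorem infinite_Gp (A B : Set ℕ) (hAB : ∀ n ∈ A, n ∉ B) : Infinite (Gp A B) := by
  classical
  let ε : ℕ → ZMod 2 := fun n => if n ∈ B then 1 else 0
  have hrel : ∀ r ∈ rels A B, FreeGroup.lift (gen ε) r = 1 := by
    rintro _ ⟨_, ⟨w, hw, rfl⟩, rfl⟩
    rw [lift_pos]
    apply ev_rel ε A B _ _ w hw
    · intro n hn
      exact if_neg (hAB n hn)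
    · intro n hn
      exact if_pos hn
  let φ : Gp A B →* Equiv.Perm V3 := PresentedGroup.toGroup hrel
  have hφ : ∀ w : List (Fin 54), φ ((w.map (sg A B)).prod) = ev ε w := by
    intro w
    rw [map_list_prod, List.map_map, ev]
    congr 1
  apply Infinite.of_injective (fun n : ℕ => ((Jw n).map (sg A B)).prod)
  intro m n hmn
  have h1 := congrArg φ hmn
  simp only at h1
  rw [hφ, hφ, ev_Jw, ev_Jw] at h1
  exact T_pow_inj m n h1

end Pool.Agent.MP_474f70_lc
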