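import Mathlib

/-!
A permutation model: elementary matrices over the endomorphism ring of an infinite dimensional
vector space over the field with two elements.
-/

set_option autoImplicit false

namespace Pool.Agent.MP_474f70_lc

/-- The vector space. -/
abbrev V : Type := List Bool → ZMod 2

/-- The space on which the group acts. -/
abbrev V3 : Type := Fin 3 → V

theorem char2 (v : V) : v + v = 0 := by
  funext w
  exact CharTwo.add_self_eq_zero (v w)

/-- Prepend the bit `d`: a one-sided shift. -/
def up (d : Bool) : AddMonoid.End V where
  toFun v w := match w with
    | [] => 0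
    | e :: w' => if e = d then v w' else 0
  map_zero' := by
    funext w
    cases w with
    | nil => rfl
    | cons e w => simp
  map_add' u v := by
    funext w
    cases w with
    | nil => simp
    | cons e w =>
      simp only [Pi.add_apply]
      split_ifs <;> simp

/-- Remove the bit `d`. -/
def dn (d : Bool) : AddMonoid.End V where
  toFun v w := v (d :: w)
  map_zero' := rfl
  map_add' _ _ := rfl

/-- The coefficients of the diagonal operators. -/
def Ec (ε : ℕ → ZMod 2) : ℕ → List Bool → ZMod 2
  | _, [] => 0
  | n, true :: w => Ec ε (n + 1) w
  | n, false :: _ => ε n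

/-- The diagonal operators. -/
def dg (ε : ℕ → ZMod 2) (n : ℕ) : AddMonoid.End V where
  toFun v w := Ec ε n w * v w
  map_zero' := by funext w; simp
  map_add' u v := by funext w; simp [mul_add]

theorem dn_dg_up (ε : ℕ → ZMod 2) (n : ℕ) :
    dn true * (dg ε n * up true) = dg ε (n + 1) := by
  ext v w
  change Ec ε n (true :: w) * (if true = true then v w else 0) = Ec ε (n + 1) w * v w
  rw [if_pos rfl, Ec]

theorem dn_dg_up' (ε : ℕ → ZMod 2) (n : ℕ) :
    dn false * (dg ε n * up false) = if ε n = 0 then 0 else 1 := by
  ext v w
  change Ec ε n (false :: w) * (if false = false then v w else 0) = _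
  rw [if_pos rfl, Ec]
  split_ifs with h
  · rw [h, zero_mul]
    rfl
  · have h1 : ε n = 1 := by
      have : ∀ a : ZMod 2, a ≠ 0 → a = 1 := by decide
      exact this _ h
    rw [h1, one_mul]
    rfl

/-- Elementary transvection. -/
def T (i j : Fin 3) (r : AddMonoid.End V) : Equiv.Perm V3 where
  toFun v := if i = j then v else Function.update v i (v i + r (v j))
  invFun v := if i = j then v else Function.update v i (v i + r (v j))
  left_inv v := by
    by_cases h : i = j
    · simp [h]
    · simp only [h, if_false]
      rw [Function.update_self, Function.update_of_ne (Ne.symm h), Function.update_idem,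
        add_assoc, char2, add_zero, Function.update_eq_self]
  right_inv v := by
    by_cases h : i = j
    · simp [h]
    · simp only [h, if_false]
      rw [Function.update_self, Function.update_of_ne (Ne.symm h), Function.update_idem,
        add_assoc, char2, add_zero, Function.update_eq_self]

theorem T_apply_ne {i j : Fin 3} (h : i ≠ j) (r : AddMonoid.End V) (v : V3) :
    T i j r v = Function.update v i (v i + r (v j)) := by
  change (if i = j then v else _) = _
  rw [if_neg h]

theorem T_self (i : Fin 3) (r : AddMonoid.End V) : T i i r = 1 := by
  ext v : 1
  change (if i = i then v else _) = _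
  rw [if_pos rfl]
  rfl

theorem T_mul_self (i j : Fin 3) (r : AddMonoid.End V) : T i j r * T i j r = 1 := by
  ext v : 1
  exact (T i j r).left_inv v

theorem T_zero (i j : Fin 3) : T i j 0 = 1 := by
  by_cases h : i = j
  · rw [h, T_self]
  · ext v : 1
    rw [T_apply_ne h]
    simp

theorem T_comm {i j k : Fin 3} (hij : i ≠ j) (hjk : j ≠ k) (hik : i ≠ k)
    (p q : AddMonoid.End V) :
    T i j p * T j k q * T i j p * T j k q = T i k (p * q) := by
  ext v : 1
  simp only [Equiv.Perm.mul_apply]
  rw [T_apply_ne hjk q v, T_apply_ne hij, T_apply_ne hjk, T_apply_ne hij, T_apply_ne hik]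
  funext l
  by_cases hl : l = i
  · subst hl
    simp only [Function.update_self, Function.update_of_ne hij, Function.update_of_ne hik,
      Function.update_of_ne (Ne.symm hij), Function.update_of_ne (Ne.symm hik),
      Function.update_of_ne (Ne.symm hjk)]
    rw [map_add, map_add, map_add]
    have h1 := char2 (p (v j))
    have h2 := char2 (p (q (v k)))
    change v l + (p (v j) + p (q (v k))) + (p (v j) + p (q (v k)) + p (q (v k))) =
      v l + p (q (v k))
    rw [add_assoc (p (v j)), h2, add_zero, add_assoc, add_comm (p (v j)) (p (q (v k))),
      add_assoc (p (q (v k))), h1, add_zero]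
  · by_cases hl' : l = j
    · subst hl'
      simp only [Function.update_self, Function.update_of_ne hij, Function.update_of_ne hik,
        Function.update_of_ne hl, Function.update_of_ne (Ne.symm hik),
        Function.update_of_ne (Ne.symm hjk)]
      rw [add_assoc, char2, add_zero]
    · simp only [Function.update_of_ne hl, Function.update_of_ne hl']

end Pool.Agent.MP_474f70_lc
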