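import Pool.Agent.Lib.MP_474f70_lc.Cls
import Pool.Agent.Lib.MP_474f70_lc.Func
import Pool.Agent.Lib.MP_474f70_lc.Group

/-!
The voting procedure extracted from a functional that computes non-constant configurations.
-/

set_option autoImplicit false

namespace Pool.Agent.MP_474f70_lc

open Pool.Agent.MP_e12961_lc
open Encodable Denumerable

theorem primrec_comm : Primrec₂ comm := by
  unfold comm
  exact Primrec.list_append.comp (Primrec.list_append.comp (Primrec.list_append.comp
    Primrec.fst Primrec.snd) Primrec.fst) Primrec.snd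

theorem primrec_Qw : Primrec Qw := by
  have h : Primrec₂ fun (_ : ℕ) (q : List (Fin 54)) =>
      comm [ltr 0 1 2] (comm [ltr 1 0 0] (comm (comm q [ltr 2 1 0]) [ltr 1 2 1])) := by
    refine primrec_comm.comp (Primrec.const _) ?_
    refine primrec_comm.comp (Primrec.const _) ?_
    refine primrec_comm.comp ?_ (Primrec.const _)
    exact primrec_comm.comp Primrec.snd (Primrec.const _)
  refine (Primrec.nat_rec₁ [ltr 0 2 5] h).of_eq ?_
  intro n
  induction n with
  | zero => rfl
  | succ n ih =>
    rw [Qw, ← ih]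

theorem primrec_W : Primrec W := by
  unfold W
  refine primrec_comm.comp (Primrec.const _) ?_
  refine primrec_comm.comp (Primrec.const _) ?_
  refine primrec_comm.comp ?_ (Primrec.const _)
  exact primrec_comm.comp primrec_Qw (Primrec.const _)

variable {k : ℕ}

/-- Translation of words. -/
def tr (t : Fin 54 → List (Fin k)) (w : List (Fin 54)) : List (Fin k) := w.flatMap t

theorem primrec_tr (t : Fin 54 → List (Fin k)) : Primrec (tr t) := by
  unfold tr
  refine Primrec.list_flatMap (f := fun w : List (Fin 54) => w) (g := fun _ a => t a)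
    Primrec.id ?_
  exact (Primrec.dom_finite t).comp Primrec.snd

theorem val_tr {G : Type} [Group G] (s : Fin k → G) (g : Fin 54 → G) (t : Fin 54 → List (Fin k))
    (ht : ∀ a, val s (t a) = g a) (w : List (Fin 54)) : val s (tr t w) = (w.map g).prod := by
  induction w with
  | nil => rfl
  | cons a w ih =>
    have h1 : tr t (a :: w) = t a ++ tr t w := rfl
    rw [h1, List.map_cons, List.prod_cons, ← ih, ← ht a]
    unfold val
    rw [List.map_append, List.prod_append]

/-- One step of the voting procedure. -/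
def stepV (ψ : List Bool → ℕ → Option ℕ) (t : Fin 54 → List (Fin k)) (σ : List Bool) (n j : ℕ) :
    Option Bool :=
  (decode (α := List (Fin 54) × List (Fin 54)) j.unpair.2).bind fun q =>
    (ψ (σ.take j.unpair.1) (encode (tr t q.1))).bind fun a =>
      (ψ (σ.take j.unpair.1) (encode (tr t (q.1 ++ (q.2 ++ ([c0] ++ q.2.reverse)))))).bind fun b =>
        (ψ (σ.take j.unpair.1) (encode (tr t (q.1 ++ (q.2 ++ (W n ++ q.2.reverse)))))).bind fun c =>
          if a = b then none else some (!(decide (c = a)))

/-- The voting procedure. -/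
def vote (ψ : List Bool → ℕ → Option ℕ) (t : Fin 54 → List (Fin k)) (σ : List Bool) (n : ℕ) :
    Option Bool :=
  ((List.range (σ.length + 1)).filterMap (stepV ψ t σ n)).head?

section prim

variable {ψ : List Bool → ℕ → Option ℕ} (hψ : Primrec₂ ψ) (t : Fin 54 → List (Fin k))

include hψ

theorem primrec_stepV :
    Primrec fun q : (List Bool × ℕ) × ℕ => stepV ψ t q.1.1 q.1.2 q.2 := by
  unfold stepV
  -- the basic projections
  have hj : Primrec fun q : (List Bool × ℕ) × ℕ => q.2.unpair := Primrec.unpair.comp Primrec.snd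
  have hσ : Primrec fun q : (List Bool × ℕ) × ℕ => q.1.1.take q.2.unpair.1 :=
    Primrec.list_take.comp (Primrec.fst.comp hj) (Primrec.fst.comp Primrec.fst)
  have hn : Primrec fun q : (List Bool × ℕ) × ℕ => q.1.2 := Primrec.snd.comp Primrec.fst
  refine Primrec.option_bind (f := fun q : (List Bool × ℕ) × ℕ =>
    decode (α := List (Fin 54) × List (Fin 54)) q.2.unpair.2)
    (g := fun q p => (ψ (q.1.1.take q.2.unpair.1) (encode (tr t p.1))).bind fun a =>
      (ψ (q.1.1.take q.2.unpair.1)
        (encode (tr t (p.1 ++ (p.2 ++ ([c0] ++ p.2.reverse)))))).bind fun b =>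
        (ψ (q.1.1.take q.2.unpair.1)
          (encode (tr t (p.1 ++ (p.2 ++ (W q.1.2 ++ p.2.reverse)))))).bind fun c =>
          if a = b then none else some (!(decide (c = a))))
    (Primrec.decode.comp (Primrec.snd.comp hj)) ?_
  let D := ((List Bool × ℕ) × ℕ) × (List (Fin 54) × List (Fin 54))
  have dσ : Primrec fun d : D => d.1.1.1.take d.1.2.unpair.1 := hσ.comp Primrec.fst
  have dn : Primrec fun d : D => d.1.1.2 := hn.comp Primrec.fst
  have d1 : Primrec fun d : D => d.2.1 := Primrec.fst.comp Primrec.snd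
  have d2 : Primrec fun d : D => d.2.2 := Primrec.snd.comp Primrec.snd
  have dr : Primrec fun d : D => d.2.2.reverse := Primrec.list_reverse.comp d2
  have hA : Primrec fun d : D => ψ (d.1.1.1.take d.1.2.unpair.1) (encode (tr t d.2.1)) :=
    hψ.comp dσ (Primrec.encode.comp ((primrec_tr t).comp d1))
  have hB : Primrec fun d : D => ψ (d.1.1.1.take d.1.2.unpair.1)
      (encode (tr t (d.2.1 ++ (d.2.2 ++ ([c0] ++ d.2.2.reverse))))) := by
    refine hψ.comp dσ (Primrec.encode.comp ((primrec_tr t).comp ?_))
    exact Primrec.list_append.comp d1 (Primrec.list_append.comp d2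
      (Primrec.list_append.comp (Primrec.const [c0]) dr))
  have hC : Primrec fun d : D => ψ (d.1.1.1.take d.1.2.unpair.1)
      (encode (tr t (d.2.1 ++ (d.2.2 ++ (W d.1.1.2 ++ d.2.2.reverse))))) := by
    refine hψ.comp dσ (Primrec.encode.comp ((primrec_tr t).comp ?_))
    exact Primrec.list_append.comp d1 (Primrec.list_append.comp d2
      (Primrec.list_append.comp (primrec_W.comp dn) dr))
  refine Primrec.option_bind (f := fun d : D =>
    ψ (d.1.1.1.take d.1.2.unpair.1) (encode (tr t d.2.1)))
    (g := fun d a => (ψ (d.1.1.1.take d.1.2.unpair.1)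
      (encode (tr t (d.2.1 ++ (d.2.2 ++ ([c0] ++ d.2.2.reverse)))))).bind fun b =>
      (ψ (d.1.1.1.take d.1.2.unpair.1)
        (encode (tr t (d.2.1 ++ (d.2.2 ++ (W d.1.1.2 ++ d.2.2.reverse)))))).bind fun c =>
        if a = b then none else some (!(decide (c = a)))) hA ?_
  refine Primrec.option_bind (f := fun d : D × ℕ => ψ (d.1.1.1.1.take d.1.1.2.unpair.1)
      (encode (tr t (d.1.2.1 ++ (d.1.2.2 ++ ([c0] ++ d.1.2.2.reverse))))))
    (g := fun d b => (ψ (d.1.1.1.1.take d.1.1.2.unpair.1)
        (encode (tr t (d.1.2.1 ++ (d.1.2.2 ++ (W d.1.1.1.2 ++ d.1.2.2.reverse)))))).bind fun c =>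
        if d.2 = b then none else some (!(decide (c = d.2)))) (hB.comp Primrec.fst) ?_
  refine Primrec.option_bind (f := fun d : (D × ℕ) × ℕ => ψ (d.1.1.1.1.1.take d.1.1.1.2.unpair.1)
      (encode (tr t (d.1.1.2.1 ++ (d.1.1.2.2 ++ (W d.1.1.1.1.2 ++ d.1.1.2.2.reverse))))))
    (g := fun d c => if d.1.2 = d.2 then none else some (!(decide (c = d.1.2))))
    (hC.comp (Primrec.fst.comp Primrec.fst)) ?_
  have e1 : Primrec fun d : ((D × ℕ) × ℕ) × ℕ => d.1.1.2 :=
    Primrec.snd.comp (Primrec.fst.comp Primrec.fst)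
  have e2 : Primrec fun d : ((D × ℕ) × ℕ) × ℕ => d.1.2 := Primrec.snd.comp Primrec.fst
  have e3 : Primrec fun d : ((D × ℕ) × ℕ) × ℕ => d.2 := Primrec.snd
  refine Primrec.ite (Primrec.eq.comp e1 e2) (Primrec.const none) ?_
  exact Primrec.option_some.comp (Primrec.not.comp (Primrec.eq.comp e3 e1).decide)

theorem primrec_vote : Primrec₂ (vote ψ t) := by
  unfold vote
  refine Primrec.list_head?.comp ?_
  refine Primrec.listFilterMap (f := fun q : List Bool × ℕ => List.range (q.1.length + 1))
    (g := fun q j => stepV ψ t q.1 q.2 j) ?_ (primrec_stepV hψ t)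
  exact Primrec.list_range.comp (Primrec.succ.comp (Primrec.list_length.comp Primrec.fst))

end prim

theorem stepV_append (ψ : List Bool → ℕ → Option ℕ) (t : Fin 54 → List (Fin k))
    (σ τ : List Bool) (n j : ℕ) (hj : j ≤ σ.length) :
    stepV ψ t (σ ++ τ) n j = stepV ψ t σ n j := by
  unfold stepV
  rw [List.take_append_of_le_length ((Nat.unpair_left_le j).trans hj)]

theorem vote_mono (ψ : List Bool → ℕ → Option ℕ) (t : Fin 54 → List (Fin k)) (σ : List Bool)
    (b : Bool) (n : ℕ) (v : Bool) (h : vote ψ t σ n = some v) :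
    vote ψ t (σ ++ [b]) n = some v := by
  unfold vote at h ⊢
  have h1 : List.range ((σ ++ [b]).length + 1) =
      List.range (σ.length + 1) ++ [σ.length + 1] := by
    rw [List.length_append, List.length_singleton, ← List.range_succ]
  have h2 : (List.range (σ.length + 1)).filterMap (stepV ψ t (σ ++ [b]) n) =
      (List.range (σ.length + 1)).filterMap (stepV ψ t σ n) := by
    apply List.filterMap_congr
    intro j hj
    rw [List.mem_range] at hj
    exact stepV_append ψ t σ [b] n j (by omega)
  rw [h1, List.filterMap_append, h2, List.head?_append, h]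
  rfl

theorem vote_sound (ψ : List Bool → ℕ → Option ℕ) (t : Fin 54 → List (Fin k)) (σ : List Bool)
    (n : ℕ) (v : Bool) (h : vote ψ t σ n = some v) : ∃ j ≤ σ.length, stepV ψ t σ n j = some v := by
  unfold vote at h
  have h1 := List.mem_of_mem_head? (Option.mem_def.2 h)
  rw [List.mem_filterMap] at h1
  obtain ⟨j, hj, hv⟩ := h1
  rw [List.mem_range] at hj
  exact ⟨j, by omega, hv⟩

theorem vote_complete (ψ : List Bool → ℕ → Option ℕ) (t : Fin 54 → List (Fin k)) (σ : List Bool)
    (n j : ℕ) (hj : j ≤ σ.length) (v : Bool) (h : stepV ψ t σ n j = some v) :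
    ∃ v', vote ψ t σ n = some v' := by
  unfold vote
  have h1 : v ∈ (List.range (σ.length + 1)).filterMap (stepV ψ t σ n) := by
    rw [List.mem_filterMap]
    exact ⟨j, by rw [List.mem_range]; omega, h⟩
  rcases h2 : (List.range (σ.length + 1)).filterMap (stepV ψ t σ n) with _ | ⟨v', L⟩
  · rw [h2] at h1
    simp at h1
  · exact ⟨v', rfl⟩

/-- If a functional computes, from each element of the class, a non-constant configuration on the
group, then the two sets could be separated. -/
theorem no_nonconstant {F : (ℕ → ℕ) → ℕ → Part ℕ} (hF : TuringFunctional F)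
    (s : Fin k → Gp setA setB) (t : Fin 54 → List (Fin k))
    (ht : ∀ a, val s (t a) = sg setA setB a)
    (h : ∀ y ∈ clsP, ∃ x : Gp setA setB → ℕ, (∃ g g', x g ≠ x g') ∧
      ∀ w : List (Fin k), F (nb y) (encode w) = Part.some (x (val s w))) : False := by
  obtain ⟨ψ, hψ⟩ := tf_rep hF
  obtain ⟨hψ1, hψ2, _⟩ := hψ (fun _ => false)
  have hW : ∀ w, val s (tr t w) = (w.map (sg setA setB)).prod := fun w => val_tr s _ t ht w
  -- correctness of the values
  have hval : ∀ y ∈ clsP, ∀ x : Gp setA setB → ℕ,
      (∀ w : List (Fin k), F (nb y) (encode w) = Part.some (x (val s w))) →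
      ∀ (w : List (Fin 54)) (m v : ℕ), ψ (res y m) (encode (tr t w)) = some v →
        v = x ((w.map (sg setA setB)).prod) := by
    intro y _ x hx w m v hv
    have h1 := ((hψ y).2.2 (encode (tr t w)) v).2 ⟨m, hv⟩
    rw [hx, Part.mem_some_iff, hW] at h1
    exact h1
  have hdef : ∀ y ∈ clsP, ∀ x : Gp setA setB → ℕ,
      (∀ w : List (Fin k), F (nb y) (encode w) = Part.some (x (val s w))) →
      ∀ (w : List (Fin 54)), ∃ m,
        ψ (res y m) (encode (tr t w)) = some (x ((w.map (sg setA setB)).prod)) := by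
    intro y _ x hx w
    apply ((hψ y).2.2 (encode (tr t w)) _).1
    rw [hx, Part.mem_some_iff, hW]
  -- analysis of a vote
  have hstep : ∀ y ∈ clsP, ∀ (n r j : ℕ) (v : Bool), stepV ψ t (res y r) n j = some v →
      j ≤ r → (n ∈ setA → v = false) ∧ (n ∈ setB → v = true) := by
    intro y hy n r j v hv hj
    obtain ⟨x, _, hx⟩ := h y hy
    unfold stepV at hv
    rw [res_take y _ _ ((Nat.unpair_left_le j).trans hj)] at hv
    rw [Option.bind_eq_some_iff] at hv
    obtain ⟨q, _, hv⟩ := hv
    rw [Option.bind_eq_some_iff] at hv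
    obtain ⟨a, ha, hv⟩ := hv
    rw [Option.bind_eq_some_iff] at hv
    obtain ⟨b, hb, hv⟩ := hv
    rw [Option.bind_eq_some_iff] at hv
    obtain ⟨c, hc, hv⟩ := hv
    split_ifs at hv with hab
    have hv' := Option.some.inj hv
    have ha' := hval y hy x hx _ _ _ ha
    have hb' := hval y hy x hx _ _ _ hb
    have hc' := hval y hy x hx _ _ _ hc
    simp only [List.map_append, List.prod_append, word_inv] at hb' hc'
    constructor
    · intro hn
      rw [W_one setA setB n hn, one_mul, mul_inv_cancel, mul_one, ← ha'] at hc'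
      rw [← hv', hc']
      simp
    · intro hn
      rw [W_c setA setB n hn] at hc'
      rw [List.map_cons, List.map_nil, List.prod_singleton, ← hc'] at hb'
      rw [← hv', ← hb']
      have : ¬ b = a := fun hba => hab hba.symm
      simp [this]
  refine majority (vote ψ t) (primrec_vote hψ1 t) (vote_mono ψ t) ?_ ?_ ?_
  · intro y hy n
    obtain ⟨x, hne, hx⟩ := h y hy
    obtain ⟨g, u, hgu⟩ := exists_conj setA setB x hne
    obtain ⟨κ, rfl⟩ := exists_word setA setB g
    obtain ⟨υ, rfl⟩ := exists_word setA setB u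
    obtain ⟨m0, h0⟩ := hdef y hy x hx κ
    obtain ⟨m1, h1⟩ := hdef y hy x hx (κ ++ (υ ++ ([c0] ++ υ.reverse)))
    obtain ⟨m2, h2⟩ := hdef y hy x hx (κ ++ (υ ++ (W n ++ υ.reverse)))
    have h0' := hψ2.le y (t := max m0 (max m1 m2)) (le_max_left _ _) h0
    have h1' := hψ2.le y (t := max m0 (max m1 m2))
      ((le_max_left m1 m2).trans (le_max_right _ _)) h1
    have h2' := hψ2.le y (t := max m0 (max m1 m2))
      ((le_max_right m1 m2).trans (le_max_right _ _)) h2
    generalize max m0 (max m1 m2) = m at h0' h1' h2'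
    set j := Nat.pair m (encode (κ, υ)) with hj
    have hmj : m ≤ j := Nat.left_le_pair _ _
    refine ⟨j, vote_complete ψ t (res y j) n j (by rw [res_length])
      (!(decide (x ((List.map (sg setA setB) (κ ++ (υ ++ (W n ++ υ.reverse)))).prod) =
        x ((List.map (sg setA setB) κ).prod)))) ?_⟩
    unfold stepV
    rw [hj, Nat.unpair_pair, ← hj, res_take y m j hmj]
    simp only [encodek, Option.bind_some]
    rw [h0', Option.bind_some, h1', Option.bind_some, h2', Option.bind_some, if_neg]
    intro hcon
    apply hgu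
    rw [hcon]
    simp only [List.map_append, List.prod_append, word_inv, List.map_cons, List.map_nil,
      List.prod_singleton, mul_assoc]
  · intro y hy n hn r hv
    obtain ⟨j, hj, hv⟩ := vote_sound ψ t _ n _ hv
    rw [res_length] at hj
    have := (hstep y hy n r j true hv hj).1 hn
    exact absurd this (by decide)
  · intro y hy n hn r hv
    obtain ⟨j, hj, hv⟩ := vote_sound ψ t _ n _ hv
    rw [res_length] at hj
    have := (hstep y hy n r j false hv hj).2 hn
    exact absurd this (by decide)

end Pool.Agent.MP_474f70_lc
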